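import Pool.Agent.Helper92_Diamond.Final

set_option autoImplicit false

/-!
# The large-beta limit shape of the boundary-penalised walk is a diamond

If a limiting shape `S β` exists for every sufficiently large `β`, then `S β` converges to the
diamond of unit diameter in Hausdorff distance modulo translations as `β → ∞`.  All definitions
are in `Pool.Agent.Helper92_Diamond.Model`.
-/

open MeasureTheory ProbabilityTheory Filter Topology
open scoped ENNReal

namespace Pool.Agent.Results.MP_fb3dca_pr.DiamondLimitShape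

open Pool.Agent.Helper92.Diamond Pool.Agent.Helper92.Diamond.Model

theorem result (S : ℝ → Set Plane)
    (hS : ∃ β₀ : ℝ, ∀ β : ℝ, β₀ ≤ β → IsLimitingShape β (S β)) :
    Tendsto (fun β : ℝ => hausTrans (S β) diamond) atTop (𝓝 0) := by
  obtain ⟨β₁, h1⟩ := hS
  rw [ENNReal.tendsto_nhds_zero]
  intro ε hε
  have hε2 : 0 < ε / 2 := ENNReal.half_pos hε.ne'
  obtain ⟨β₂, h2⟩ := shape_concentration (ε / 2) hε2
  filter_upwards [eventually_ge_atTop β₁, eventually_ge_atTop β₂, eventually_ge_atTop 0]
    with β hβ1 hβ2 hβ0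
  have l1 := h1 β hβ1 (ε / 2) hε2
  have l2 := h2 β hβ2
  have hthird : (0 : ℝ≥0∞) < ENNReal.ofReal (1 / 3) := by
    rw [ENNReal.ofReal_pos]
    norm_num
  have ev1 := l1.eventually_lt_const hthird
  have ev2 := l2.eventually_lt_const hthird
  obtain ⟨t, ht1, ht2, ht0⟩ := (ev1.and (ev2.and (eventually_ge_atTop 0))).exists
  have := isProbabilityMeasure_gibbs hβ0 ht0
  have hne : ∃ ω : Sample, ω ∉ {ω | ε / 2 ≤ hausTrans (scaled (walkRange ω t)) (S β)} ∪
      {ω | ε / 2 ≤ hausTrans (scaled (walkRange ω t)) diamond} := by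
    by_contra hcon
    push Not at hcon
    have huniv : {ω | ε / 2 ≤ hausTrans (scaled (walkRange ω t)) (S β)} ∪
      {ω | ε / 2 ≤ hausTrans (scaled (walkRange ω t)) diamond} = Set.univ :=
      Set.eq_univ_of_forall hcon
    have h3 := measure_union_le (μ := gibbs β t)
      {ω | ε / 2 ≤ hausTrans (scaled (walkRange ω t)) (S β)}
      {ω | ε / 2 ≤ hausTrans (scaled (walkRange ω t)) diamond}
    rw [huniv, measure_univ] at h3
    have h4 : (1 : ℝ≥0∞) < 1 := by
      calc (1 : ℝ≥0∞) ≤ _ := h3
        _ < ENNReal.ofReal (1 / 3) + ENNReal.ofReal (1 / 3) := ENNReal.add_lt_add ht1 ht2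
        _ = ENNReal.ofReal (2 / 3) := by
            rw [← ENNReal.ofReal_add (by norm_num) (by norm_num)]
            norm_num
        _ ≤ 1 := by
            rw [ENNReal.ofReal_le_one]
            norm_num
    exact absurd h4 (lt_irrefl _)
  obtain ⟨ω, hω⟩ := hne
  rw [Set.mem_union, not_or] at hω
  have hA : hausTrans (scaled (walkRange ω t)) (S β) < ε / 2 := not_le.1 hω.1
  have hB : hausTrans (scaled (walkRange ω t)) diamond < ε / 2 := not_le.1 hω.2
  have := hausTrans_triangle_aux hA hB
  rwa [ENNReal.add_halves] at this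

end Pool.Agent.Results.MP_fb3dca_pr.DiamondLimitShape
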